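import Pool.Agent.L7h70.SB.Stm

/-!
# Project SM: the generic continuous Riemannian metric, statements
-/

set_option autoImplicit false

open Set Filter Topology MeasureTheory
open scoped Real ContDiff
open Pool.Agent.Y262.QE Pool.Agent.Y264.QR Pool.Agent.L7h70.SB

noncomputable section

namespace Pool.Agent.L7h70.SM

/-- the surface with the charts of `D` and the metric `v ↦ ‖A i z v‖²` -/
def mk {M : Type} (D : Data M) (A : Fin D.N → ℂ → ℂ →L[ℝ] ℂ) : Data M := ⟨D.N, D.U, D.φ, D.ψ, A⟩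

/-- the metrics `A` and `B` differ by a factor `≤ exp ε` (for the norms of the vectors) -/
def Near {M : Type} (D : Data M) (ε : ℝ) (A B : Fin D.N → ℂ → ℂ →L[ℝ] ℂ) : Prop :=
  ∀ i, ∀ z ∈ D.T i, ∀ v : ℂ, ‖A i z v‖ ≤ Real.exp ε * ‖B i z v‖ ∧
    ‖B i z v‖ ≤ Real.exp ε * ‖A i z v‖

/-- a continuous Riemannian metric on the surface with the charts of `D`, with its area -/
structure Met {M : Type} [TopologicalSpace M] [MeasurableSpace M] (D : Data M) where
  A : Fin D.N → ℂ → ℂ →L[ℝ] ℂ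
  μ : Measure M
  surf : (mk D A).IsSurf μ

/-- the `C⁰` topology: a set is a neighbourhood of `g` if it contains, for some `ε > 0`, all metrics which
differ from `g` by a factor `≤ exp ε` -/
instance {M : Type} [TopologicalSpace M] [MeasurableSpace M] (D : Data M) :
    TopologicalSpace (Met D) where
  IsOpen U := ∀ g ∈ U, ∃ ε : ℝ, 0 < ε ∧ ∀ g' : Met D, Near D ε g.A g'.A → g' ∈ U
  isOpen_univ := fun _ _ => ⟨1, one_pos, fun _ _ => trivial⟩
  isOpen_inter := by
    rintro U V hU hV g ⟨h1, h2⟩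
    obtain ⟨ε, hε, h3⟩ := hU g h1
    obtain ⟨δ, hδ, h4⟩ := hV g h2
    refine ⟨min ε δ, lt_min hε hδ, fun g' hg' => ⟨h3 g' fun i z hz v => ?_, h4 g' fun i z hz v => ?_⟩⟩
    · obtain ⟨h5, h6⟩ := hg' i z hz v
      have h7 : Real.exp (min ε δ) ≤ Real.exp ε := Real.exp_le_exp.2 (min_le_left _ _)
      exact ⟨h5.trans (mul_le_mul_of_nonneg_right h7 (norm_nonneg _)),
        h6.trans (mul_le_mul_of_nonneg_right h7 (norm_nonneg _))⟩
    · obtain ⟨h5, h6⟩ := hg' i z hz v
      have h7 : Real.exp (min ε δ) ≤ Real.exp δ := Real.exp_le_exp.2 (min_le_right _ _)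
      exact ⟨h5.trans (mul_le_mul_of_nonneg_right h7 (norm_nonneg _)),
        h6.trans (mul_le_mul_of_nonneg_right h7 (norm_nonneg _))⟩
  isOpen_sUnion := by
    rintro S hS g ⟨U, hU, hg⟩
    obtain ⟨ε, hε, h1⟩ := hS U hU g hg
    exact ⟨ε, hε, fun g' hg' => ⟨U, hU, h1 g' hg'⟩⟩

/-- `CMP` (comparison of the eigenvalues of two close metrics). Proof: `|det A|` and `|det B|` differ by a factor
`≤ exp (2 ε)`, the norms of the gradients (`grd A P`, `grd B P`) by `≤ exp ε`; hence for `F` in `C1` (the same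
functions for both metrics) `∫ |gr F|² ≤ exp (4 ε) ∫ |gr F|²`, `∫ F² ≤ exp (2 ε) ∫ F²`. The eigenvalues are the
minimax values over `(k + 1)`-dimensional spaces of `C1` functions up to `δ`: for `lam` use the span of
`u 0, ..., u k`, approximated by the `C1` functions of `IsEig.ex`; for `lam'` a `(k + 1)`-dimensional space
contains a function orthogonal to `u' 0, ..., u' (k - 1)`; or use `Ev`, `StMM`, `tBr` with `φ = 0`, `StDenF`
(`Pool.Agent.Y264.QR`, `Pool.Agent.Y592.QE.mm`; the Weyl law file `Y378/QR/Wl.lean` has similar steps). -/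
def S_CMP : Prop :=
  ∀ (M : Type) [MetricSpace M] [CompactSpace M] [MeasurableSpace M] [BorelSpace M] [Nonempty M]
    (D : Data M) (A B : Fin D.N → ℂ → ℂ →L[ℝ] ℂ) (μ ν : Measure M), (mk D A).IsSurf μ →
    (mk D B).IsSurf ν → ∀ ε : ℝ, 0 ≤ ε → Near D ε A B →
    ν.real univ ≤ Real.exp (2 * ε) * μ.real univ ∧
    ∀ (u : ℕ → M → ℝ) (lam : ℕ → ℝ), EigBasis (mk D A) μ u lam →
      ∀ (u' : ℕ → M → ℝ) (lam' : ℕ → ℝ), EigBasis (mk D B) ν u' lam' →
        ∀ k, lam' k ≤ Real.exp (6 * ε) * lam k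

/-- The metric contains a band around a great circle of a round sphere, in linear coordinates: on the elliptic
annulus `R exp (-η) ≤ ‖L (z - z₀)‖ ≤ R exp η` of the chart `i` it is the pull-back by `z ↦ L (z - z₀)` of `c`
times the metric of the unit sphere in the coordinates with the equator `|y| = R`. -/
def HasBandL {M : Type} (D : Data M) : Prop :=
  ∃ (i : Fin D.N) (z₀ : ℂ) (L : ℂ →L[ℝ] ℂ) (R η c : ℝ), L.det ≠ 0 ∧ 0 < R ∧ 0 < η ∧ 0 < c ∧
    ∀ z : ℂ, R * Real.exp (-η) ≤ ‖L (z - z₀)‖ → ‖L (z - z₀)‖ ≤ R * Real.exp η → z ∈ D.T i ∧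
      ∀ v : ℂ, ‖D.A i z v‖ ^ 2 = c * (2 * R / (R ^ 2 + ‖L (z - z₀)‖ ^ 2)) ^ 2 * ‖L v‖ ^ 2

/-- `CLL` (clusters for bands in linear coordinates). Proof: replace the chart `i` by
`φ' x = L (φ_i x - z₀)`, `ψ' y = ψ_i (z₀ + L⁻¹ y)`, `A' y = A_i (z₀ + L⁻¹ y) ∘ L⁻¹`. This is again `IsSurf`
with the same area, the same `C1` functions and the same products `⟨gr F, gr G⟩` (`grd (A ∘ L⁻¹) (P ∘ L⁻¹) =
grd A P`), so `EigBasis` passes to it (`‖gr F - gr G‖² = ‖gr (F - G)‖²` by `tGr`); it has `HasBand` for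
`φ = 0` (`D.conf (exp 0) = D`, `wm μ (exp 0) = μ`); apply `S_CL`. -/
def S_CLL : Prop :=
  ∀ (M : Type) [MetricSpace M] [CompactSpace M] [MeasurableSpace M] [BorelSpace M] (μ : Measure M)
    (D : Data M), D.IsSurf μ → HasBandL D → ∃ κ : ℝ, 0 < κ ∧
    ∀ (u : ℕ → M → ℝ) (lam : ℕ → ℝ), EigBasis D μ u lam → Clusters κ lam

/-- `MOD` (local modification). Proof: `z₀ ∈ T i`, `L = A_i z₀`, `q z = ‖L (z - z₀)‖`, `k = 2 R² / (R² + q²)`,
`χ` a cutoff, `χ = 1` for `|log (q / R)| ≤ η`, `χ = 0` for `|log (q / R)| ≥ 2 η` (and near `z₀`), with `R` and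
then `η` small. `C z = A_i(z)⁻¹ ∘ ((1 - χ z) A_i(z) + χ z k z L)` is a continuous field of endomorphisms, the
identity where `χ = 0`, close to the identity (in the sense of the norms `‖A_i z ·‖`). In the chart `j`:
`A'_j w = A_j w ∘ P_ji(z) ∘ C(z) ∘ P_ij(w)`, `z = φ_i (ψ_j w)`, `P_ij w` the derivative of `φ_i ∘ ψ_j` at `w`,
if `ψ_j w ∈ U_i`, and `A'_j w = A_j w` otherwise (the modification lives in the compact set
`ψ_i (supp χ)`). The area is `μ` with the density `|det C(φ_i x)|` on `U i`, `1` elsewhere. Since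
`A_j ∘ P_ji` and `A_i` have the same norms, `‖A'_j P_ji v‖ = ‖A_i C v‖ = ‖A'_i v‖`. -/
def S_MOD : Prop :=
  ∀ (M : Type) [MetricSpace M] [CompactSpace M] [MeasurableSpace M] [BorelSpace M] [Nonempty M]
    (μ : Measure M) (D : Data M), D.IsSurf μ → ∀ ε : ℝ, 0 < ε →
    ∃ (A : Fin D.N → ℂ → ℂ →L[ℝ] ℂ) (ν : Measure M), (mk D A).IsSurf ν ∧ Near D ε D.A A ∧
      HasBandL (mk D A)

/-- `BAIM` (the space of the continuous metrics is a Baire space). Proof: a sequence with
`Near D (2^(-n)) (g_n) (g_(n+1))` has a limit: the symmetric matrices `A_n i z ^* A_n i z` converge, uniformly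
up to factors, to a continuous field `S i z` of positive definite symmetric matrices; put `A i z = √(S i z)`
(for 2×2 matrices `√S = (S + √(det S)) / √(tr S + 2 √(det S))`), the area is `μ_0` with the density
`|det A| / |det A_0|`. Then as for complete metric spaces. -/
def S_BAIM : Prop :=
  ∀ (M : Type) [MetricSpace M] [CompactSpace M] [MeasurableSpace M] [BorelSpace M]
    (D : Data M) (μ : Measure M), D.IsSurf μ → BaireSpace (Met D)

end Pool.Agent.L7h70.SM
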