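import Pool.Agent.L7h70.SM.Stm
import Pool.Agent.L7h70.SB.Bai2

/-! Project SM: topological assembly. -/

set_option autoImplicit false

open Set Filter Topology MeasureTheory
open scoped Real ContDiff
open Pool.Agent.Y262.QE Pool.Agent.Y264.QR Pool.Agent.L7h70.SB

noncomputable section

namespace Pool.Agent.L7h70.SM

open Pool.Agent.Q205.Baire (Spectra count lt_count)

/-- the unfolded levels of the surface `D` with the area `μ` -/
def Levels {M : Type} [MeasurableSpace M] (D : Data M) (μ : Measure M) (x : ℕ → ℝ) : Prop :=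
  ∃ (u : ℕ → M → ℝ) (lam : ℕ → ℝ), EigBasis D μ u lam ∧ ∀ k, x k = μ.real univ / (4 * π) * lam k

section abstract

variable {F : Type} [TopologicalSpace F]

/-- Baire category for families of spectra -/
theorem gen1 (X : Spectra F)
    (hd : Dense {φ : F | ∀ (n : ℕ) (s : ℝ), 0 < s → ∃ c : ℝ, 0 < c ∧ ∀ᶠ T : ℝ in atTop,
      ∃ A : Finset (Fin (n + 2) → ℕ), Tup n s T (fun k => X.x k φ) A ∧
        c * T ^ (((n : ℝ) + 3) / 2) ≤ A.card}) :
    ∀ᶠ φ in residual F, ∀ (n : ℕ) (f : (Fin (n + 1) → ℝ) → ℝ), Continuous f → (∀ y, 0 ≤ f y) →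
      0 < f 0 → ∀ C : ℝ, ∃ᶠ T : ℝ in atTop, C ≤ corr n f T (fun k => X.x k φ) := by
  set O : ℕ × ℕ × ℕ × ℕ → Set F := fun p => {φ | ∃ T : ℝ, (p.2.2.2 : ℝ) < T ∧
    ∃ A : Finset (Fin (p.1 + 2) → ℕ), Tup p.1 (1 / ((p.2.1 : ℝ) + 1)) T (fun k => X.x k φ) A ∧
      (p.2.2.1 : ℝ) * T < A.card} with hO
  have hopen : ∀ p, IsOpen (O p) := by
    rintro ⟨n, q, C, T0⟩
    rw [isOpen_iff_mem_nhds]
    rintro φ ⟨T, hT, A, hA1, hA2⟩
    have h1 : ∀ σ ∈ A, ∀ᶠ ψ in 𝓝 φ, (∀ i, X.x (σ i) ψ < T) ∧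
        ∀ i j, |X.x (σ i) ψ - X.x (σ j) ψ| < 1 / ((q : ℝ) + 1) := by
      intro σ hσ
      obtain ⟨-, h2, h3⟩ := hA1 σ hσ
      refine Eventually.and ?_ ?_
      · rw [eventually_all]
        exact fun i => (X.cont _).continuousAt.eventually (gt_mem_nhds (h2 i))
      · rw [eventually_all]
        intro i
        rw [eventually_all]
        intro j
        exact (((X.cont _).sub (X.cont _)).abs).continuousAt.eventually (gt_mem_nhds (h3 i j))
    have h2 := (Finset.eventually_all A).2 h1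
    filter_upwards [h2] with ψ hψ
    exact ⟨T, hT, A, fun σ hσ => ⟨(hA1 σ hσ).1, (hψ σ hσ).1, (hψ σ hσ).2⟩, hA2⟩
  have hdense : ∀ p, Dense (O p) := by
    rintro ⟨n, q, C, T0⟩
    refine hd.mono ?_
    intro φ hφ
    obtain ⟨c, hc, h1⟩ := hφ n (1 / ((q : ℝ) + 1)) (by positivity)
    have h2 : Tendsto (fun T : ℝ => c * T ^ (((n : ℝ) + 1) / 2)) atTop atTop :=
      (tendsto_rpow_atTop (by positivity)).const_mul_atTop hc
    obtain ⟨T, ⟨A, hA1, hA2⟩, hT1, hT2, hT3⟩ := (h1.and ((h2.eventually (eventually_gt_atTop (C : ℝ))).and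
      ((eventually_gt_atTop (T0 : ℝ)).and (eventually_gt_atTop (0 : ℝ))))).exists
    refine ⟨T, hT2, A, hA1, lt_of_lt_of_le ?_ hA2⟩
    have h4 : T ^ (((n : ℝ) + 1) / 2) * T = T ^ (((n : ℝ) + 3) / 2) := by
      rw [← Real.rpow_add_one hT3.ne']
      congr 1
      ring
    show (C : ℝ) * T < c * T ^ (((n : ℝ) + 3) / 2)
    rw [← h4, ← mul_assoc]
    exact mul_lt_mul_of_pos_right hT1 hT3
  have hres : ∀ᶠ φ in residual F, ∀ p, φ ∈ O p := by
    rw [eventually_countable_forall]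
    exact fun p => residual_of_dense_open (hopen p) (hdense p)
  filter_upwards [hres] with φ hφ n f hf hf0 hf1 C
  obtain ⟨s, hs, h1⟩ := near_zero hf hf1
  obtain ⟨q, hq⟩ := exists_nat_one_div_lt hs
  obtain ⟨C', hC'⟩ := exists_nat_gt (2 * |C| / f 0)
  rw [frequently_atTop]
  intro T1
  obtain ⟨T0, hT0⟩ := exists_nat_gt (max T1 0)
  obtain ⟨T, hT, A, hA1, hA2⟩ := hφ (n, q, C', T0)
  have hTpos : 0 < T := lt_of_le_of_lt (le_max_right _ _) (hT0.trans hT)
  refine ⟨T, ((le_max_left _ _).trans_lt (hT0.trans hT)).le, ?_⟩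
  have h2 := corr_ge X φ (fun k => X.x k φ) rfl n f hf0 (1 / ((q : ℝ) + 1)) T hTpos (f 0 / 2)
    (fun y hy => h1 y fun j => (hy j).trans hq) A hA1
  refine le_trans ?_ h2
  rw [le_div_iff₀ hTpos]
  rw [div_lt_iff₀ hf1] at hC'
  have h3 : (C' : ℝ) * T < A.card := hA2
  have h4 : |C| ≤ f 0 / 2 * C' := by linarith
  calc C * T ≤ |C| * T := mul_le_mul_of_nonneg_right (le_abs_self _) hTpos.le
    _ ≤ (f 0 / 2 * C') * T := mul_le_mul_of_nonneg_right h4 hTpos.le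
    _ = f 0 / 2 * (C' * T) := by ring
    _ ≤ f 0 / 2 * A.card := mul_le_mul_of_nonneg_left h3.le (by positivity)

theorem gen2 (X : Spectra F)
    (hd : Dense {φ : F | ∃ c C : ℝ, 0 < c ∧ 0 < C ∧ ∀ᶠ T : ℝ in atTop, ∃ A : Finset ℕ,
      (∀ k ∈ A, X.x (k + 1) φ < T ∧ X.x (k + 1) φ - X.x k φ < C / Real.sqrt T) ∧
        c * T ≤ A.card}) (a b : ℝ → ℝ)
    (ha : Tendsto (fun T => a T * Real.sqrt T) atTop atTop) (hb : Tendsto b atTop (𝓝 0)) :
    ∀ᶠ φ in residual F, ∃ᶠ T : ℝ in atTop, b T * T ≤ gaps (a T) T (fun k => X.x k φ) := by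
  set O : ℕ → Set F := fun T0 => {φ | ∃ T : ℝ, (T0 : ℝ) < T ∧
    ∃ A : Finset ℕ, (∀ k ∈ A, X.x (k + 1) φ < T ∧ X.x (k + 1) φ - X.x k φ < a T) ∧
      b T * T < A.card} with hO
  have hopen : ∀ p, IsOpen (O p) := by
    intro T0
    rw [isOpen_iff_mem_nhds]
    rintro φ ⟨T, hT, A, hA1, hA2⟩
    have h1 : ∀ k ∈ A, ∀ᶠ ψ in 𝓝 φ, X.x (k + 1) ψ < T ∧ X.x (k + 1) ψ - X.x k ψ < a T := by
      intro k hk
      obtain ⟨h2, h3⟩ := hA1 k hk
      exact ((X.cont _).continuousAt.eventually (gt_mem_nhds h2)).and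
        (((X.cont _).sub (X.cont _)).continuousAt.eventually (gt_mem_nhds h3))
    have h2 := (Finset.eventually_all A).2 h1
    filter_upwards [h2] with ψ hψ
    exact ⟨T, hT, A, hψ, hA2⟩
  have hdense : ∀ p, Dense (O p) := by
    intro T0
    refine hd.mono ?_
    rintro φ ⟨c, C, hc, hC, h1⟩
    obtain ⟨T, ⟨A, hA1, hA2⟩, hT1, hT2, hT3, hT4⟩ := (h1.and ((ha.eventually
      (eventually_gt_atTop C)).and ((hb.eventually (gt_mem_nhds hc)).and
      ((eventually_gt_atTop (T0 : ℝ)).and (eventually_gt_atTop (0 : ℝ)))))).exists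
    refine ⟨T, hT3, A, fun k hk => ⟨(hA1 k hk).1, (hA1 k hk).2.trans ?_⟩, lt_of_lt_of_le ?_ hA2⟩
    · rw [div_lt_iff₀ (Real.sqrt_pos.2 hT4)]
      exact hT1
    · exact mul_lt_mul_of_pos_right hT2 hT4
  have hres : ∀ᶠ φ in residual F, ∀ p, φ ∈ O p := by
    rw [eventually_countable_forall]
    exact fun p => residual_of_dense_open (hopen p) (hdense p)
  filter_upwards [hres] with φ hφ
  rw [frequently_atTop]
  intro T1
  obtain ⟨T0, hT0⟩ := exists_nat_gt T1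
  obtain ⟨T, hT, A, hA1, hA2⟩ := hφ T0
  refine ⟨T, (hT0.trans hT).le, ?_⟩
  have h2 := gaps_ge X φ (fun k => X.x k φ) rfl (a T) T A hA1
  have h3 : (A.card : ℝ) ≤ gaps (a T) T (fun k => X.x k φ) := by exact_mod_cast h2
  exact hA2.le.trans h3

end abstract

/-! ### The space of the metrics -/

section met

variable {M : Type} [MetricSpace M] [CompactSpace M] [MeasurableSpace M] [BorelSpace M]
  {D : Data M}

omit [CompactSpace M] [BorelSpace M] in
theorem near_mono {ε δ : ℝ} (h : ε ≤ δ) {A B : Fin D.N → ℂ → ℂ →L[ℝ] ℂ} (hAB : Near D ε A B) :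
    Near D δ A B := fun i z hz v => by
  obtain ⟨h5, h6⟩ := hAB i z hz v
  have h7 : Real.exp ε ≤ Real.exp δ := Real.exp_le_exp.2 h
  exact ⟨h5.trans (mul_le_mul_of_nonneg_right h7 (norm_nonneg _)),
    h6.trans (mul_le_mul_of_nonneg_right h7 (norm_nonneg _))⟩

omit [CompactSpace M] [BorelSpace M] in
theorem near_symm {ε : ℝ} {A B : Fin D.N → ℂ → ℂ →L[ℝ] ℂ} (hAB : Near D ε A B) :
    Near D ε B A := fun i z hz v => ⟨(hAB i z hz v).2, (hAB i z hz v).1⟩

omit [CompactSpace M] [BorelSpace M] in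
theorem near_trans {ε δ : ℝ} {A B C : Fin D.N → ℂ → ℂ →L[ℝ] ℂ} (hAB : Near D ε A B)
    (hBC : Near D δ B C) : Near D (ε + δ) A C := fun i z hz v => by
  obtain ⟨h1, h2⟩ := hAB i z hz v
  obtain ⟨h3, h4⟩ := hBC i z hz v
  rw [Real.exp_add]
  constructor
  · calc ‖A i z v‖ ≤ Real.exp ε * ‖B i z v‖ := h1
      _ ≤ Real.exp ε * (Real.exp δ * ‖C i z v‖) :=
        mul_le_mul_of_nonneg_left h3 (Real.exp_pos _).le
      _ = _ := by ring
  · calc ‖C i z v‖ ≤ Real.exp δ * ‖B i z v‖ := h4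
      _ ≤ Real.exp δ * (Real.exp ε * ‖A i z v‖) :=
        mul_le_mul_of_nonneg_left h2 (Real.exp_pos _).le
      _ = _ := by ring

omit [CompactSpace M] [BorelSpace M] in
theorem near_mem (g : Met D) {ε : ℝ} (hε : 0 < ε) : {g' : Met D | Near D ε g.A g'.A} ∈ 𝓝 g := by
  have h1 : IsOpen {g' : Met D | ∃ δ : ℝ, δ < ε ∧ Near D δ g.A g'.A} := by
    rintro g' ⟨δ, hδ, h⟩
    refine ⟨(ε - δ) / 2, by linarith, fun g'' h' => ⟨δ + (ε - δ) / 2, by linarith,
      near_trans h h'⟩⟩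
  refine mem_of_superset (h1.mem_nhds ⟨0, hε, fun i z _ v => ?_⟩) ?_
  · simp
  · rintro g' ⟨δ, hδ, h⟩
    exact near_mono hδ.le h

omit [CompactSpace M] [BorelSpace M] in
theorem mem_near (g : Met D) {V : Set (Met D)} (hV : V ∈ 𝓝 g) :
    ∃ ε : ℝ, 0 < ε ∧ ∀ g' : Met D, Near D ε g.A g'.A → g' ∈ V := by
  obtain ⟨U, hU, hU2, hg⟩ := mem_nhds_iff.1 hV
  obtain ⟨ε, hε, h⟩ := hU2 g hg
  exact ⟨ε, hε, fun g' hg' => hU (h g' hg')⟩

variable [Nonempty M]

/-- the levels are monotone and unbounded -/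
theorem lev_mono {μ : Measure M} (hD : D.IsSurf μ) {x : ℕ → ℝ} (hx : Levels D μ x) :
    Monotone x ∧ Tendsto x atTop atTop := by
  have h0 : Pool.Agent.Results.MP_a825e8_mp.SurfacesLimitStatistics.IsUnfolded D μ 0 x := by
    obtain ⟨u, lam, hu, hxk⟩ := hx
    have e1 : D.conf (fun y => Real.exp ((0 : C(M, ℝ)) y)) = D := by
      unfold Data.conf
      simp
    have e2 : wm μ (fun y => Real.exp ((0 : C(M, ℝ)) y)) = μ := by
      unfold wm
      simp
    refine ⟨u, lam, ?_, ?_⟩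
    · unfold Pool.Agent.Results.MP_a825e8_mp.SurfacesLimitStatistics.surf
        Pool.Agent.Results.MP_a825e8_mp.SurfacesLimitStatistics.area
      rw [e1, e2]
      exact ⟨hu.eig, hu.mono, hu.orth, hu.total⟩
    · unfold Pool.Agent.Results.MP_a825e8_mp.SurfacesLimitStatistics.area
      rw [e2]
      exact hxk
  obtain ⟨X, hX, -⟩ := Pool.Agent.N250.SP.exists_spectra M μ D hD Unit (fun _ => 0)
    continuous_const (fun _ => x) (fun _ => h0)
  have hX' : (fun k => X.x k ()) = x := hX ()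
  rw [← hX']
  exact ⟨X.mono (), X.unb ()⟩

theorem lev_near (hC : S_CMP) {x : Met D → ℕ → ℝ} (hx : ∀ g, Levels (mk D g.A) g.μ (x g))
    (g g' : Met D) {ε : ℝ} (hε : 0 ≤ ε) (h : Near D ε g.A g'.A) (k : ℕ) :
    x g' k ≤ Real.exp (8 * ε) * x g k := by
  obtain ⟨u, lam, hu, hxk⟩ := hx g
  obtain ⟨u', lam', hu', hxk'⟩ := hx g'
  obtain ⟨h1, h2⟩ := hC M D g.A g'.A g.μ g'.μ g.surf g'.surf ε hε h
  have h3 := h2 u lam hu u' lam' hu' k
  have h0 : 0 ≤ lam' k := by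
    obtain ⟨X, hX, -⟩ : ∃ y : ℝ, 0 ≤ y ∧ True := ⟨0, le_rfl, trivial⟩
    by_contra hneg
    push Not at hneg
    -- a negative eigenvalue is impossible: use the comparison with itself for large `ε`
    have h4 : ∀ t : ℝ, 0 ≤ t → lam' k ≤ Real.exp (6 * t) * lam' k := by
      intro t ht
      refine (hC M D g'.A g'.A g'.μ g'.μ g'.surf g'.surf t ht ?_).2 u' lam' hu' u' lam' hu' k
      intro i z _ v
      have h5 : 1 ≤ Real.exp t := Real.one_le_exp ht
      have h6 : ‖g'.A i z v‖ ≤ Real.exp t * ‖g'.A i z v‖ := by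
        nlinarith [norm_nonneg (g'.A i z v)]
      exact ⟨h6, h6⟩
    have h5 := h4 1 zero_le_one
    have h6 : 1 < Real.exp (6 * 1) := Real.one_lt_exp_iff.2 (by norm_num)
    nlinarith
  rw [hxk, hxk']
  have h7 : (0 : ℝ) < 4 * π := by positivity
  have h8 : g'.μ.real univ / (4 * π) ≤ Real.exp (2 * ε) * (g.μ.real univ / (4 * π)) := by
    rw [← mul_div_assoc]
    exact div_le_div_of_nonneg_right h1 h7.le
  calc g'.μ.real univ / (4 * π) * lam' k ≤
      (Real.exp (2 * ε) * (g.μ.real univ / (4 * π))) * lam' k := mul_le_mul_of_nonneg_right h8 h0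
    _ ≤ (Real.exp (2 * ε) * (g.μ.real univ / (4 * π))) * (Real.exp (6 * ε) * lam k) :=
        mul_le_mul_of_nonneg_left h3 (by positivity)
    _ = (Real.exp (2 * ε) * Real.exp (6 * ε)) * (g.μ.real univ / (4 * π) * lam k) := by ring
    _ = _ := by rw [← Real.exp_add]; ring_nf

theorem lev_cont (hC : S_CMP) {x : Met D → ℕ → ℝ} (hx : ∀ g, Levels (mk D g.A) g.μ (x g))
    (k : ℕ) : Continuous fun g => x g k := by
  rw [continuous_iff_continuousAt]
  intro g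
  rw [ContinuousAt, Metric.tendsto_nhds]
  intro δ hδ
  -- `exp (8 ε) x` and `exp (- 8 ε) x` are close to `x`
  have h1 : Tendsto (fun ε : ℝ => Real.exp (8 * ε) * x g k) (𝓝 0) (𝓝 (x g k)) := by
    have : Tendsto (fun ε : ℝ => Real.exp (8 * ε) * x g k) (𝓝 0) (𝓝 (Real.exp (8 * 0) * x g k)) := by
      apply Continuous.tendsto
      fun_prop
    simpa using this
  have h2 : Tendsto (fun ε : ℝ => Real.exp (-(8 * ε)) * x g k) (𝓝 0) (𝓝 (x g k)) := by
    have : Tendsto (fun ε : ℝ => Real.exp (-(8 * ε)) * x g k) (𝓝 0)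
        (𝓝 (Real.exp (-(8 * 0)) * x g k)) := by
      apply Continuous.tendsto
      fun_prop
    simpa using this
  have h3 := (h1.eventually (Metric.ball_mem_nhds _ hδ)).and
    (h2.eventually (Metric.ball_mem_nhds _ hδ))
  obtain ⟨ε, hε, h4⟩ : ∃ ε : ℝ, 0 < ε ∧ (Real.exp (8 * ε) * x g k ∈ Metric.ball (x g k) δ ∧
      Real.exp (-(8 * ε)) * x g k ∈ Metric.ball (x g k) δ) := by
    obtain ⟨r, hr, h5⟩ := Metric.eventually_nhds_iff.1 h3
    refine ⟨r / 2, by linarith, h5 ?_⟩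
    rw [Real.dist_eq, sub_zero, abs_of_pos (by linarith)]
    linarith
  filter_upwards [near_mem g hε] with g' hg'
  have h5 := lev_near hC hx g g' hε.le hg' k
  have h6 := lev_near hC hx g' g hε.le (near_symm hg') k
  have h7 : Real.exp (-(8 * ε)) * x g k ≤ x g' k := by
    rw [Real.exp_neg, inv_mul_le_iff₀ (Real.exp_pos _)]
    exact h6
  obtain ⟨h8, h9⟩ := h4
  rw [Metric.mem_ball, Real.dist_eq, abs_lt] at h8 h9
  rw [Real.dist_eq, abs_lt]
  constructor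
  · linarith [h9.1]
  · linarith [h8.2]

/-- the theorem -/
theorem main (hC : S_CMP) (hL : S_CLL) (hM : S_MOD) (hCN : S_CNT) (hG : S_GAP)
    (x : Met D → ℕ → ℝ) (hx : ∀ g, Levels (mk D g.A) g.μ (x g)) :
    (∀ᶠ g in residual (Met D), ∀ (n : ℕ) (f : (Fin (n + 1) → ℝ) → ℝ), Continuous f →
      (∀ y, 0 ≤ f y) → 0 < f 0 → ∀ C : ℝ, ∃ᶠ T : ℝ in atTop, C ≤ corr n f T (x g)) ∧
    ∀ a b : ℝ → ℝ, Tendsto (fun T => a T * Real.sqrt T) atTop atTop → Tendsto b atTop (𝓝 0) →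
      ∀ᶠ g in residual (Met D), ∃ᶠ T : ℝ in atTop, b T * T ≤ gaps (a T) T (x g) := by
  let X : Spectra (Met D) :=
    { x := fun k g => x g k
      cont := lev_cont hC hx
      mono := fun g => (lev_mono g.surf (hx g)).1
      unb := fun g => (lev_mono g.surf (hx g)).2 }
  have hband : Dense {g : Met D | HasBandL (mk D g.A)} := by
    intro g
    rw [mem_closure_iff_nhds]
    intro V hV
    obtain ⟨ε, hε, h1⟩ := mem_near g hV
    obtain ⟨A, ν, h2, h3, h4⟩ := hM M g.μ (mk D g.A) g.surf ε hε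
    exact ⟨⟨A, ν, h2⟩, h1 ⟨A, ν, h2⟩ h3, h4⟩
  have hclu : ∀ g : Met D, HasBandL (mk D g.A) → ∃ κ : ℝ, 0 < κ ∧ Clusters κ (x g) := by
    intro g hg
    obtain ⟨κ, hκ, h1⟩ := hL M g.μ (mk D g.A) g.surf hg
    obtain ⟨u, lam, hu, hxk⟩ := hx g
    have ha : 0 < g.μ.real univ / (4 * π) := by
      obtain ⟨hfin, hpos⟩ := tFin M _ _ g.surf
      haveI := hfin
      have h3 : 0 < g.μ univ := hpos univ isOpen_univ univ_nonempty
      have h4 : 0 < g.μ.real univ := by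
        rw [measureReal_def]
        exact ENNReal.toReal_pos h3.ne' (measure_ne_top g.μ _)
      positivity
    refine ⟨_, mul_pos ha hκ, ?_⟩
    have h3 := clusters_scale ha (h1 u lam hu)
    have h4 : (fun k => g.μ.real univ / (4 * π) * lam k) = x g := by
      funext k
      rw [hxk]
    rw [h4] at h3
    exact h3
  refine ⟨gen1 X (hband.mono ?_), fun a b ha hb => gen2 X (hband.mono ?_) a b ha hb⟩
  · intro g hg n s hs
    obtain ⟨κ, hκ, h1⟩ := hclu g hg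
    exact hCN (x g) κ hκ h1 n s hs
  · intro g hg
    obtain ⟨κ, hκ, h1⟩ := hclu g hg
    exact hG (x g) κ hκ (X.mono g) (X.unb g) h1

end met

end Pool.Agent.L7h70.SM
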