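import Pool.Agent.L7h70.SM.Stm
import Pool.Agent.L7h70.SB.Top
import Pool.Agent.Y960.QE.Int
import Pool.Agent.Y708.QE.Gr

/-! Project SM: affine changes of the charts; clusters for bands in linear coordinates. -/

set_option autoImplicit false

open Set Filter Topology MeasureTheory
open scoped Real ContDiff
open Pool.Agent.Y262.QE Pool.Agent.Y264.QR Pool.Agent.L7h70.SB

noncomputable section

namespace Pool.Agent.L7h70.SM

variable {M : Type}

/-- affine changes of the coordinates -/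
def aff (D : Data M) (L : Fin D.N → ℂ ≃L[ℝ] ℂ) (c : Fin D.N → ℂ) : Data M where
  N := D.N
  U := D.U
  φ := fun j x => L j (D.φ j x - c j)
  ψ := fun j y => D.ψ j (c j + (L j).symm y)
  A := fun j y => (D.A j (c j + (L j).symm y)).comp ((L j).symm : ℂ →L[ℝ] ℂ)

theorem aff_T (D : Data M) (L : Fin D.N → ℂ ≃L[ℝ] ℂ) (c : Fin D.N → ℂ) (j : Fin D.N) :
    (aff D L c).T j = (fun y => c j + (L j).symm y) ⁻¹' D.T j := by
  ext y
  constructor
  · rintro ⟨x, hx, rfl⟩
    refine ⟨x, hx, ?_⟩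
    show D.φ j x = c j + (L j).symm (L j (D.φ j x - c j))
    rw [ContinuousLinearEquiv.symm_apply_apply]
    ring
  · rintro ⟨x, hx, h⟩
    refine ⟨x, hx, ?_⟩
    show L j (D.φ j x - c j) = y
    have h' : D.φ j x = c j + (L j).symm y := h
    rw [h', add_sub_cancel_left, ContinuousLinearEquiv.apply_symm_apply]

theorem aff_back (D : Data M) (L : Fin D.N → ℂ ≃L[ℝ] ℂ) (c : Fin D.N → ℂ) (j : Fin D.N) (z : ℂ) :
    c j + (L j).symm (L j (z - c j)) = z := by
  rw [ContinuousLinearEquiv.symm_apply_apply]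
  ring

theorem det_comp (A B : ℂ →L[ℝ] ℂ) : (A.comp B).det = A.det * B.det := by
  show LinearMap.det ((A : ℂ →ₗ[ℝ] ℂ).comp (B : ℂ →ₗ[ℝ] ℂ)) = _
  rw [LinearMap.det_comp]

theorem det_symm (e : ℂ ≃L[ℝ] ℂ) :
    ((e : ℂ →L[ℝ] ℂ)).det * ((e.symm : ℂ →L[ℝ] ℂ)).det = 1 := by
  rw [← det_comp]
  have h1 : (e : ℂ →L[ℝ] ℂ).comp (e.symm : ℂ →L[ℝ] ℂ) = ContinuousLinearMap.id ℝ ℂ :=
    ContinuousLinearMap.ext fun x => e.apply_symm_apply x
  rw [h1]
  show LinearMap.det (LinearMap.id : ℂ →ₗ[ℝ] ℂ) = 1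
  simp

section

variable [TopologicalSpace M] [MeasurableSpace M] {μ : Measure M} {D : Data M}

theorem fderiv_aff (G : ℂ → ℝ) (e : ℂ ≃L[ℝ] ℂ) (c y : ℂ) :
    fderiv ℝ (fun y => G (c + e.symm y)) y =
      (fderiv ℝ G (c + e.symm y)).comp (e.symm : ℂ →L[ℝ] ℂ) := by
  have h1 : (fun y => G (c + e.symm y)) = (fun z => G (c + z)) ∘ e.symm := rfl
  rw [h1, ContinuousLinearEquiv.comp_right_fderiv]
  congr 1
  exact fderiv_comp_add_left c

end

section surf

variable [MetricSpace M] [CompactSpace M] [MeasurableSpace M] [BorelSpace M] {μ : Measure M}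
  {D : Data M}

omit [CompactSpace M] in
theorem aff_surf (hD : D.IsSurf μ) (L : Fin D.N → ℂ ≃L[ℝ] ℂ) (c : Fin D.N → ℂ) :
    (aff D L c).IsSurf μ := by
  have hcb : ∀ j : Fin D.N, Continuous fun y : ℂ => c j + (L j).symm y := fun j =>
    continuous_const.add (L j).symm.continuous
  refine ⟨hD.openU, hD.cover, ?_, ?_, ?_, ?_, ?_, ?_, ?_, ?_⟩
  · intro (j : Fin D.N) x hx
    show D.ψ j (c j + (L j).symm (L j (D.φ j x - c j))) = x
    rw [aff_back]
    exact hD.left j x hx
  · intro (j : Fin D.N)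
    exact (L j).continuous.comp_continuousOn ((hD.contφ j).sub continuousOn_const)
  · intro (j : Fin D.N)
    rw [aff_T]
    exact (hD.openT j).preimage (hcb j)
  · intro (j : Fin D.N)
    rw [aff_T]
    exact (hD.contψ j).comp (hcb j).continuousOn fun y hy => hy
  · intro (j : Fin D.N) z hz
    rw [aff_T] at hz
    show ((D.A j (c j + (L j).symm z)).comp ((L j).symm : ℂ →L[ℝ] ℂ)).det ≠ 0
    rw [det_comp]
    refine mul_ne_zero (hD.det j _ hz) ?_
    intro h0
    have := det_symm (L j)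
    rw [h0, mul_zero] at this
    exact zero_ne_one this
  · intro (j : Fin D.N)
    rw [aff_T]
    exact ((hD.contA j).comp (hcb j).continuousOn fun y hy => hy).clm_comp continuousOn_const
  · intro (i : Fin D.N) (j : Fin D.N) x (hi : x ∈ D.U i) (hj : x ∈ D.U j)
    obtain ⟨h1, h2⟩ := hD.tr i j x hi hj
    have hb : c i + (L i).symm (L i (D.φ i x - c i)) = D.φ i x := aff_back D L c i _
    have hin : HasFDerivAt (fun y : ℂ => c i + (L i).symm y) ((L i).symm : ℂ →L[ℝ] ℂ)
        (L i (D.φ i x - c i)) := ((L i).symm : ℂ →L[ℝ] ℂ).hasFDerivAt.const_add _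
    have hmid : HasFDerivAt (fun z => D.φ j (D.ψ i z))
        (fderiv ℝ (fun z => D.φ j (D.ψ i z)) (D.φ i x)) (c i + (L i).symm (L i (D.φ i x - c i))) := by
      rw [hb]
      exact (h1.differentiableAt one_ne_zero).hasFDerivAt
    have hall : HasFDerivAt (fun y : ℂ => L j (D.φ j (D.ψ i (c i + (L i).symm y)) - c j))
        (((L j : ℂ →L[ℝ] ℂ)).comp ((fderiv ℝ (fun z => D.φ j (D.ψ i z)) (D.φ i x)).comp
          ((L i).symm : ℂ →L[ℝ] ℂ))) (L i (D.φ i x - c i)) :=
      (L j : ℂ →L[ℝ] ℂ).hasFDerivAt.comp _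
        ((HasFDerivAt.comp (f := fun y : ℂ => c i + (L i).symm y) _ hmid hin).sub_const _)
    constructor
    · show ContDiffAt ℝ 1 (fun y : ℂ => L j (D.φ j (D.ψ i (c i + (L i).symm y)) - c j))
        (L i (D.φ i x - c i))
      refine (L j).contDiff.contDiffAt.comp _ (ContDiffAt.sub ?_ contDiffAt_const)
      have h3 : ContDiffAt ℝ 1 (fun z => D.φ j (D.ψ i z))
          (c i + (L i).symm (L i (D.φ i x - c i))) := by rw [hb]; exact h1
      exact ContDiffAt.comp (f := fun y : ℂ => c i + (L i).symm y) _ h3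
        (contDiffAt_const.add (L i).symm.contDiff.contDiffAt)
    · intro v
      show ‖(D.A j (c j + (L j).symm (L j (D.φ j x - c j)))) ((L j).symm
        (fderiv ℝ (fun y : ℂ => L j (D.φ j (D.ψ i (c i + (L i).symm y)) - c j))
          (L i (D.φ i x - c i)) v))‖ =
        ‖D.A i (c i + (L i).symm (L i (D.φ i x - c i))) ((L i).symm v)‖
      rw [hall.fderiv, hb, aff_back]
      simp only [ContinuousLinearMap.comp_apply, ContinuousLinearEquiv.coe_coe,
        ContinuousLinearEquiv.symm_apply_apply]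
      exact h2 _
  · intro (j : Fin D.N) B (hB : B ⊆ D.U j) hm
    have hS := Pool.Agent.Y960.QE.meas_im hD j hB hm
    have himg : (aff D L c).φ j '' B = (fun z => L j (z - c j)) '' (D.φ j '' B) := by
      rw [image_image]
      rfl
    have hder : ∀ z ∈ D.φ j '' B, HasFDerivWithinAt (fun z => L j (z - c j))
        ((L j : ℂ →L[ℝ] ℂ)) (D.φ j '' B) z := fun z _ =>
      ((L j : ℂ →L[ℝ] ℂ).hasFDerivAt.comp z ((hasFDerivAt_id z).sub_const _)).hasFDerivWithinAt
    have hinj : InjOn (fun z => L j (z - c j)) (D.φ j '' B) := by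
      intro z _ z' _ h
      have := (L j).injective h
      exact sub_left_injective this
    rw [himg, lintegral_image_eq_lintegral_abs_det_fderiv_mul volume hS hder hinj,
      hD.area j B hB hm]
    apply lintegral_congr
    intro z
    show ENNReal.ofReal |(D.A j z).det| = ENNReal.ofReal |((L j : ℂ →L[ℝ] ℂ)).det| *
      ENNReal.ofReal |((D.A j (c j + (L j).symm (L j (z - c j)))).comp
        ((L j).symm : ℂ →L[ℝ] ℂ)).det|
    rw [aff_back, det_comp, ← ENNReal.ofReal_mul (abs_nonneg _), ← abs_mul]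
    congr 2
    have := det_symm (L j)
    calc (D.A j z).det = (D.A j z).det * 1 := (mul_one _).symm
      _ = (D.A j z).det * (((L j : ℂ →L[ℝ] ℂ)).det * (((L j).symm : ℂ →L[ℝ] ℂ)).det) := by rw [this]
      _ = _ := by ring

omit [MetricSpace M] [CompactSpace M] [MeasurableSpace M] [BorelSpace M] in
theorem aff_C1 (L : Fin D.N → ℂ ≃L[ℝ] ℂ) (c : Fin D.N → ℂ) (F : M → ℝ) :
    (aff D L c).C1 F ↔ D.C1 F := by
  constructor
  · intro h j
    have h1 := h j
    rw [aff_T] at h1
    have h2 : ContDiffOn ℝ 1 ((fun y => F (D.ψ j (c j + (L j).symm y))) ∘ fun z => L j (z - c j))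
        (D.T j) := by
      refine ContDiffOn.comp h1 ?_ ?_
      · exact ((L j).contDiff.comp (contDiff_id.sub contDiff_const)).contDiffOn
      · intro z hz
        show c j + (L j).symm (L j (z - c j)) ∈ D.T j
        rw [aff_back]
        exact hz
    refine h2.congr fun z _ => ?_
    show F (D.ψ j z) = F (D.ψ j (c j + (L j).symm (L j (z - c j))))
    rw [aff_back]
  · intro h j
    rw [aff_T]
    exact ContDiffOn.comp (g := fun z => F (D.ψ j z)) (f := fun y => c j + (L j).symm y) (h j)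
      (contDiff_const.add (L j).symm.contDiff).contDiffOn fun y hy => hy

omit [CompactSpace M] [BorelSpace M] in
theorem aff_gr (hD : D.IsSurf μ) (L : Fin D.N → ℂ ≃L[ℝ] ℂ) (c : Fin D.N → ℂ) (F : M → ℝ) :
    (aff D L c).gr F = D.gr F := by
  funext x
  unfold Data.gr
  apply Finset.sum_congr rfl
  intro (j : Fin D.N) _
  by_cases hx : x ∈ D.pc j
  · have hx' : x ∈ (aff D L c).pc j := hx
    rw [indicator_of_mem hx, indicator_of_mem hx']
    have hU : x ∈ D.U j := hx.1
    have hdet : (D.A j (D.φ j x)).det ≠ 0 := hD.det j _ ⟨x, hU, rfl⟩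
    show grd ((D.A j (c j + (L j).symm (L j (D.φ j x - c j)))).comp ((L j).symm : ℂ →L[ℝ] ℂ))
      (fderiv ℝ (fun y => F (D.ψ j (c j + (L j).symm y))) (L j (D.φ j x - c j))) =
      grd (D.A j (D.φ j x)) (fderiv ℝ (fun z => F (D.ψ j z)) (D.φ j x))
    have h1 : fderiv ℝ (fun y => F (D.ψ j (c j + (L j).symm y))) (L j (D.φ j x - c j)) =
        (fderiv ℝ (fun z => F (D.ψ j z)) (c j + (L j).symm (L j (D.φ j x - c j)))).comp
          ((L j).symm : ℂ →L[ℝ] ℂ) := fderiv_aff (fun z => F (D.ψ j z)) (L j) (c j) _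
    rw [h1, aff_back]
    set A := D.A j (D.φ j x)
    have hdet2 : (A.comp ((L j).symm : ℂ →L[ℝ] ℂ)).det ≠ 0 := by
      rw [det_comp]
      refine mul_ne_zero hdet ?_
      intro h0
      have := det_symm (L j)
      rw [h0, mul_zero] at this
      exact zero_ne_one this
    have hinv : ∀ v, (A.comp ((L j).symm : ℂ →L[ℝ] ℂ)).inverse v = L j (A.inverse v) := by
      intro v
      have h2 := Pool.Agent.Y708.QE.inv_apply' hdet2 (L j (A.inverse v))
      have h3 : (A.comp ((L j).symm : ℂ →L[ℝ] ℂ)) (L j (A.inverse v)) = v := by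
        simp only [ContinuousLinearMap.comp_apply, ContinuousLinearEquiv.coe_coe,
          ContinuousLinearEquiv.symm_apply_apply]
        exact Pool.Agent.Y708.QE.inv_apply hdet v
      rw [h3] at h2
      exact h2
    unfold grd
    rw [hinv, hinv]
    simp only [ContinuousLinearMap.comp_apply, ContinuousLinearEquiv.coe_coe,
      ContinuousLinearEquiv.symm_apply_apply]
  · have hx' : x ∉ (aff D L c).pc j := hx
    rw [indicator_of_notMem hx, indicator_of_notMem hx']

omit [CompactSpace M] [BorelSpace M] in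
theorem aff_eig (hD : D.IsSurf μ) (L : Fin D.N → ℂ ≃L[ℝ] ℂ) (c : Fin D.N → ℂ) {lam : ℝ}
    {u : M → ℝ} (h : D.IsEig μ lam u) : (aff D L c).IsEig μ lam u := by
  obtain ⟨F, h1, h2, h3, h4⟩ := h.ex
  refine ⟨h.mem, F, fun k => (aff_C1 L c _).2 (h1 k), h2, ?_, fun G hG => ?_⟩
  · simp only [aff_gr hD]
    exact h3
  · simp only [aff_gr hD]
    exact h4 G ((aff_C1 L c _).1 hG)

theorem s_CLL : S_CLL := by
  intro M _ _ _ _ μ D hD hB
  obtain ⟨i, z₀, L, R, η, c, hL, hR, hη, hc, hb⟩ := hB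
  set Le := L.toContinuousLinearEquivOfDetNeZero hL with hLe
  have hLe' : ∀ v, Le v = L v := fun v => rfl
  set Lf : Fin D.N → ℂ ≃L[ℝ] ℂ :=
    Function.update (fun _ => ContinuousLinearEquiv.refl ℝ ℂ) i Le with hLf
  set cf : Fin D.N → ℂ := Function.update (fun _ => 0) i z₀ with hcf
  have hLi : Lf i = Le := Function.update_self ..
  have hci : cf i = z₀ := Function.update_self ..
  have hS := aff_surf hD Lf cf
  have hband : HasBand (aff D Lf cf) (0 : C(M, ℝ)) := by
    refine ⟨i, 0, R, η, c, hR, hη, hc, fun y h1 h2 => ?_⟩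
    rw [sub_zero] at h1 h2
    have h3 : L (z₀ + Le.symm y - z₀) = y := by
      rw [add_sub_cancel_left, ← hLe', ContinuousLinearEquiv.apply_symm_apply]
    obtain ⟨h4, h5⟩ := hb (z₀ + Le.symm y) (by rw [h3]; exact h1) (by rw [h3]; exact h2)
    refine ⟨?_, fun v => ?_⟩
    · rw [aff_T]
      show cf i + (Lf i).symm y ∈ D.T i
      rw [hLi, hci]
      exact h4
    · have h6 := h5 (Le.symm v)
      rw [h3] at h6
      have h7 : L (Le.symm v) = v := by rw [← hLe', ContinuousLinearEquiv.apply_symm_apply]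
      rw [h7] at h6
      show Real.exp 0 * ‖D.A i (cf i + (Lf i).symm y) ((Lf i).symm v)‖ ^ 2 = _
      rw [hLi, hci, Real.exp_zero, one_mul, sub_zero]
      exact h6
  obtain ⟨κ, hκ, h1⟩ := t_CL M μ (aff D Lf cf) hS 0 hband
  refine ⟨κ, hκ, fun u lam hu => h1 u lam ?_⟩
  have e1 : (aff D Lf cf).conf (fun y => Real.exp ((0 : C(M, ℝ)) y)) = aff D Lf cf := by
    unfold Data.conf
    simp
  have e2 : wm μ (fun y => Real.exp ((0 : C(M, ℝ)) y)) = μ := by
    unfold wm
    simp
  rw [e1, e2]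
  exact ⟨fun j => aff_eig hD Lf cf (hu.eig j), hu.mono, hu.orth, hu.total⟩

end surf

end Pool.Agent.L7h70.SM
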