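import Pool.Agent.L7h70.SM.Asm
import Pool.Agent.L7h70.SM.Cll
import Pool.Agent.L7h53.SM.Baim
import Pool.Agent.L7h56.SM.Cmp
import Pool.Agent.L7h46.SM.Mod

/-!
# Project SM: assembly

The parts are by helper56 (comparison of eigenvalues), helper46 (local modification), helper53 (Baire
property) and helper70 (changes of charts, assembly).
-/

set_option autoImplicit false

open Set Filter Topology MeasureTheory
open scoped Real ContDiff
open Pool.Agent.Y262.QE Pool.Agent.Y264.QR Pool.Agent.L7h70.SB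

noncomputable section

namespace Pool.Agent.L7h70.SM

/-- the unfolded levels exist -/
theorem lev_ex {M : Type} [MetricSpace M] [CompactSpace M] [MeasurableSpace M] [BorelSpace M]
    [Nonempty M] {μ : Measure M} {D : Data M} (hD : D.IsSurf μ) : ∃ x, Levels D μ x := by
  obtain ⟨u, lam, h⟩ := Pool.Agent.Y264.QR.tEx M μ D hD inferInstance (0 : C(M, ℝ))
  have e1 : D.conf (fun y => Real.exp ((0 : C(M, ℝ)) y)) = D := by
    unfold Data.conf
    simp
  have e2 : wm μ (fun y => Real.exp ((0 : C(M, ℝ)) y)) = μ := by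
    unfold wm
    simp
  rw [e1, e2] at h
  exact ⟨_, u, lam, h, fun k => rfl⟩

theorem t_main {M : Type} [MetricSpace M] [CompactSpace M] [MeasurableSpace M] [BorelSpace M]
    [Nonempty M] {D : Data M} (x : Met D → ℕ → ℝ) (hx : ∀ g, Levels (mk D g.A) g.μ (x g)) :
    (∀ᶠ g in residual (Met D), ∀ (n : ℕ) (f : (Fin (n + 1) → ℝ) → ℝ), Continuous f →
      (∀ y, 0 ≤ f y) → 0 < f 0 → ∀ C : ℝ, ∃ᶠ T : ℝ in atTop, C ≤ corr n f T (x g)) ∧
    ∀ a b : ℝ → ℝ, Tendsto (fun T => a T * Real.sqrt T) atTop atTop → Tendsto b atTop (𝓝 0) →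
      ∀ᶠ g in residual (Met D), ∃ᶠ T : ℝ in atTop, b T * T ≤ gaps (a T) T (x g) :=
  main Pool.Agent.L7h56.SM.s_CMP s_CLL Pool.Agent.L7h46.SM.s_MOD t_CNT t_GAP x hx

end Pool.Agent.L7h70.SM
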